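import Pool.Agent.helper43.DHB.SpecB

/-!
# Project d2: (MP_5823cb_al), row d2:bCFG: probability of one configuration
-/

set_option autoImplicit false

open Filter Topology MeasureTheory
open scoped commutatorElement

namespace Pool.Agent.helper90.DH

open Pool.Agent.helper64.D2

theorem bCFG_dg {q L N : ℕ} (ω : Fin q × Fin L → Fin N) (i : Fin q) (l : Fin L) (c : Fin N) (i' l' : ℕ) :
    dg (Function.update ω (i, l) c) i' l' = if i' = i ∧ l' = l then (c : ℕ) else dg ω i' l' := by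
  unfold dg
  by_cases h : i' < q ∧ l' < L
  · rw [dif_pos h, dif_pos h]
    by_cases h2 : i' = i ∧ l' = l
    · rw [if_pos h2]
      have h3 : ((⟨i', h.1⟩, ⟨l', h.2⟩) : Fin q × Fin L) = (i, l) := Prod.ext (Fin.ext h2.1) (Fin.ext h2.2)
      rw [h3, Function.update_self]
    · rw [if_neg h2, Function.update_of_ne]
      intro h3
      apply h2
      have h4 := Prod.ext_iff.1 h3
      exact ⟨congrArg Fin.val h4.1, congrArg Fin.val h4.2⟩
  · rw [dif_neg h, dif_neg h, if_neg]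
    rintro ⟨h2, h3⟩
    exact h ⟨h2 ▸ i.2, h3 ▸ l.2⟩

theorem bCFG_dg_le {q L N : ℕ} (ω : Fin q × Fin L → Fin N) (i l : ℕ) : dg ω i l ≤ N := by
  unfold dg
  split_ifs
  · exact (Fin.is_lt _).le
  · exact Nat.zero_le _

theorem bCFG (hNPR : bNPR_stmt) (hCLB : bCLB_stmt) (hPRD : bPRD_stmt) (hPRB : bPRB_stmt) (hDGT : bDGT_stmt)
    (hWDF : bWDF_stmt) (hNMF : bNMF_stmt) : bCFG_stmt := by
  intro β hβ
  obtain ⟨Kb, hKb, hW⟩ := hWDF β hβ
  refine ⟨Kb, hKb, ?_⟩
  intro q u w N S k P Em τ th kk τ1 p E hNM hτ1 hτ hu hwu hN hS hp1 hth hSPR hmono hpI hcln hPIn hE hcard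
  obtain ⟨A, hA⟩ : ∃ A : Set (Fin q × Fin (2 ^ u) → Fin N), A = {w' : Fin q × Fin (2 ^ u) → Fin N | ∀ e ∈ E, |CMf β u N τ P Em (dg w') e.1 (p e.2.1) - p e.2.2| ≤ 10 / 2 ^ S} := ⟨_, rfl⟩
  rw [← hA]
  have hNr : (0 : ℝ) < N := Nat.cast_pos.2 hN
  have hbase : 0 ≤ 40 / (2 ^ S * τ1) + 1 / (N : ℝ) := by positivity
  rcases A.eq_empty_or_nonempty with h0 | ⟨ω₀, hω₀⟩
  · rw [h0, hPRB.2.2.1]
    positivity
  have hωA := hω₀
  rw [hA] at hωA
  -- slopes
  have hP := fun i => hNMF.2.2.1 (P i) (1 / 100) (by norm_num) (hNM i).1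
  have hEm := fun i => hNMF.2.2.1 (Em i) (1 / 100) (by norm_num) (hNM i).2
  have hτ0 : ∀ i, 0 < τ i := fun i => hτ1.trans_le (hτ i).1
  have hWi : ∀ (i : ℕ) (ω : Fin q × Fin (2 ^ u) → Fin N), _ := fun i ω =>
    hW u N (τ i) (dg ω i) hu hN (hτ0 i).le (bCFG_dg_le ω i)
  have hWs : ∀ (i : ℕ) (ω : Fin q × Fin (2 ^ u) → Fin N) (x y : ℝ), |Wd β u N (τ i) (dg ω i) x - Wd β u N (τ i) (dg ω i) y| ≤ 1 / 100 * |x - y| := by
    intro i ω x y
    obtain ⟨h1, -, h2, -⟩ := hWi i ω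
    have h3 := (h1.differentiable (by norm_num))
    have h4 := Convex.norm_image_sub_le_of_norm_deriv_le (f := Wd β u N (τ i) (dg ω i)) (C := 1 / 100) (s := Set.univ) (x := y) (y := x)
      (fun z _ => h3 z) (fun z _ => by
        rw [Real.norm_eq_abs]
        exact (h2 z).trans (hτ i).2.2) convex_univ (Set.mem_univ _) (Set.mem_univ _)
    rwa [Real.norm_eq_abs, Real.norm_eq_abs] at h4
  have h2w : (0 : ℝ) < 2 ^ w := by positivity
  have hbus : th * q * max 1 kk < ((bus p w E).card : ℝ) := by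
    refine hNPR q (fun i x => P i (Em i x)) (fun i x => CMf β u N τ P Em (dg ω₀) i x) th kk k w p E hth hSPR hmono hpI hcln ?_ ?_ hPIn ?_ hcard
    · intro i hi x
      change |P i (Em i x + Wd β u N (τ i) (dg ω₀ i) x) - P i (Em i x)| ≤ _
      have h1 := ((hP i).2.2.2 (Em i x + Wd β u N (τ i) (dg ω₀ i) x) (Em i x)).2
      have h2 := (hWi i ω₀).2.1 x
      rw [add_sub_cancel_left] at h1
      have h3 := (hτ i).2.1
      have h4 : 3 * τ i ≤ 3 / 8 * (1 / 2 ^ w) := by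
        have : (1 : ℝ) / (8 * 2 ^ w) = 1 / 8 * (1 / 2 ^ w) := by field_simp
        rw [this] at h3
        linarith
      have h5 : (0 : ℝ) < 1 / 2 ^ w := by positivity
      linarith
    · intro i hi x y
      change _ ≤ |P i (Em i x + Wd β u N (τ i) (dg ω₀ i) x) - P i (Em i y + Wd β u N (τ i) (dg ω₀ i) y)| ∧
        |P i (Em i x + Wd β u N (τ i) (dg ω₀ i) x) - P i (Em i y + Wd β u N (τ i) (dg ω₀ i) y)| ≤ _
      obtain ⟨h1, h2⟩ := (hP i).2.2.2 (Em i x + Wd β u N (τ i) (dg ω₀ i) x) (Em i y + Wd β u N (τ i) (dg ω₀ i) y)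
      obtain ⟨h3, h4⟩ := (hEm i).2.2.2 x y
      have h5 := hWs i ω₀ x y
      have h6 : (Em i x + Wd β u N (τ i) (dg ω₀ i) x) - (Em i y + Wd β u N (τ i) (dg ω₀ i) y) =
        (Em i x - Em i y) + (Wd β u N (τ i) (dg ω₀ i) x - Wd β u N (τ i) (dg ω₀ i) y) := by ring
      rw [h6] at h1 h2
      have h7 := abs_add_le (Em i x - Em i y) (Wd β u N (τ i) (dg ω₀ i) x - Wd β u N (τ i) (dg ω₀ i) y)
      have h8 : |Em i x - Em i y| - |Wd β u N (τ i) (dg ω₀ i) x - Wd β u N (τ i) (dg ω₀ i) y| ≤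
          |(Em i x - Em i y) + (Wd β u N (τ i) (dg ω₀ i) x - Wd β u N (τ i) (dg ω₀ i) y)| := by
        have := abs_sub_abs_le_abs_sub (Em i x - Em i y) (-(Wd β u N (τ i) (dg ω₀ i) x - Wd β u N (τ i) (dg ω₀ i) y))
        rwa [abs_neg, sub_neg_eq_add] at this
      have h9 := abs_nonneg (x - y)
      constructor <;> nlinarith
    · intro e he
      obtain ⟨h1, h2, h3⟩ := hE e he
      exact ⟨h1, h2, h3, (hωA e he).trans hS⟩
  -- the tests
  have hwit : ∀ t : {t // t ∈ bus p w E}, ∃ e ∈ E, (e.1, clu p w e.2.1) = t.1 := by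
    rintro ⟨t, ht⟩
    unfold bus at ht
    rw [Finset.mem_image] at ht
    exact ht
  choose e he het using hwit
  have h2u : (0 : ℝ) < 2 ^ u := by positivity
  have hci : ∀ t : {t // t ∈ bus p w E}, ∃ l : Fin (2 ^ u), ((l : ℕ) : ℤ) = ci u (p (e t).2.1) := by
    intro t
    obtain ⟨h1, h2⟩ := hpI _ (hE _ (he t)).2.1
    have h3 : 0 ≤ ci u (p (e t).2.1) := by
      unfold ci
      apply Int.floor_nonneg.2
      have : (0 : ℝ) ≤ p (e t).2.1 := by linarith
      positivity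
    have h4 : ci u (p (e t).2.1) < 2 ^ u := by
      unfold ci
      rw [Int.floor_lt]
      push_cast
      nlinarith
    refine ⟨⟨(ci u (p (e t).2.1)).toNat, ?_⟩, ?_⟩
    · have : ((ci u (p (e t).2.1)).toNat : ℤ) < ((2 ^ u : ℕ) : ℤ) := by
        rw [Int.toNat_of_nonneg h3]
        push_cast
        exact h4
      exact_mod_cast this
    · exact Int.toNat_of_nonneg h3
  choose l hl using hci
  have : Nonempty (Fin N) := ⟨⟨0, hN⟩⟩
  have hmain := hPRD (Fin q × Fin (2 ^ u)) (Fin N) {t // t ∈ bus p w E}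
    (fun t => {ω | |CMf β u N τ P Em (dg ω) (e t).1 (p (e t).2.1) - p (e t).2.2| ≤ 10 / 2 ^ S})
    (fun t => (⟨(e t).1, (hE _ (he t)).1⟩, l t)) (40 / (2 ^ S * τ1) + 1 / (N : ℝ)) hbase ?_ ?_
  · refine (hPRB.1 _ A (⋂ t : {t // t ∈ bus p w E}, {ω | |CMf β u N τ P Em (dg ω) (e t).1 (p (e t).2.1) - p (e t).2.2| ≤ 10 / 2 ^ S}) ?_).trans (hmain.trans ?_)
    · intro ω hω
      rw [hA] at hω
      rw [Set.mem_iInter]
      intro t
      exact hω _ (he t)
    · refine pow_le_pow_of_le_one hbase hp1 ?_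
      rw [Fintype.card_coe]
      exact Nat.ceil_le.2 hbus.le
  · -- independence
    intro t t' htt ω c
    have key : CMf β u N τ P Em (dg (Function.update ω (⟨(e t).1, (hE _ (he t)).1⟩, l t) c)) (e t').1 (p (e t').2.1) =
        CMf β u N τ P Em (dg ω) (e t').1 (p (e t').2.1) := by
      unfold CMf
      by_cases hi : (e t').1 = (e t).1
      · have hclu : clu p w (e t).2.1 ≠ clu p w (e t').2.1 := by
          intro h
          apply htt
          apply Subtype.ext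
          rw [← het t, ← het t', hi, h]
        have hfar := (hCLB k p hmono).2 w _ _ hclu
        have hx := hpI _ (hE _ (he t')).2.1
        rw [(hWi (e t').1 ω).2.2.2.1 (p (e t').2.1) hx (dg (Function.update ω (⟨(e t).1, (hE _ (he t)).1⟩, l t) c) (e t').1)]
        intro l' hl'
        rw [bCFG_dg, if_neg]
        rintro ⟨-, h2⟩
        rw [h2, hl t] at hl'
        have h3 : |2 ^ u * p (e t).2.1 - 2 ^ u * p (e t').2.1| < 3 := by
          have h4 := Int.floor_le ((2 : ℝ) ^ u * p (e t).2.1)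
          have h5 := Int.lt_floor_add_one ((2 : ℝ) ^ u * p (e t).2.1)
          have h6 := Int.floor_le ((2 : ℝ) ^ u * p (e t').2.1)
          have h7 := Int.lt_floor_add_one ((2 : ℝ) ^ u * p (e t').2.1)
          have h8 : |((ci u (p (e t).2.1) : ℤ) : ℝ) - ((ci u (p (e t').2.1) : ℤ) : ℝ)| ≤ 1 := by exact_mod_cast hl'
          unfold ci at h8
          rw [abs_le] at h8
          rw [abs_lt]
          constructor <;> linarith
        rw [← mul_sub, abs_mul, abs_of_pos h2u] at h3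
        have h9 : (16 : ℝ) / 2 ^ w * 2 ^ u ≤ 2 ^ u * |p (e t).2.1 - p (e t').2.1| := by
          rw [mul_comm]
          exact mul_le_mul_of_nonneg_left hfar.le h2u.le
        have h10 : (2 : ℝ) ^ (w + 6) ≤ 2 ^ u := pow_le_pow_right₀ (by norm_num) hwu
        have h11 : (16 : ℝ) * 64 ≤ 16 / 2 ^ w * 2 ^ u := by
          rw [div_mul_eq_mul_div, le_div_iff₀ h2w]
          rw [pow_add] at h10
          linarith
        linarith
      · have h1 : dg (Function.update ω (⟨(e t).1, (hE _ (he t)).1⟩, l t) c) (e t').1 = dg ω (e t').1 := by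
          funext l'
          rw [bCFG_dg, if_neg]
          rintro ⟨h2, -⟩
          exact hi h2
        rw [h1]
    change |CMf β u N τ P Em (dg ω) (e t').1 (p (e t').2.1) - p (e t').2.2| ≤ 10 / 2 ^ S ↔
      |CMf β u N τ P Em (dg (Function.update ω (⟨(e t).1, (hE _ (he t)).1⟩, l t) c)) (e t').1 (p (e t').2.1) - p (e t').2.2| ≤ 10 / 2 ^ S
    rw [key]
  · -- one digit
    intro t ω
    have hx := hpI _ (hE _ (he t)).2.1
    have hset : {c : Fin N | Function.update ω (⟨(e t).1, (hE _ (he t)).1⟩, l t) c ∈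
        {ω | |CMf β u N τ P Em (dg ω) (e t).1 (p (e t).2.1) - p (e t).2.2| ≤ 10 / 2 ^ S}} =
        {c : Fin N | |P (e t).1 ((Em (e t).1 (p (e t).2.1) + Wd β u N (τ (e t).1) (Function.update (dg ω (e t).1) (l t) 0) (p (e t).2.1)) +
          τ (e t).1 * (((c : ℕ) : ℝ) / N)) - p (e t).2.2| ≤ 10 / 2 ^ S} := by
      ext c
      change |P (e t).1 (Em (e t).1 (p (e t).2.1) + Wd β u N (τ (e t).1) (dg (Function.update ω (⟨(e t).1, (hE _ (he t)).1⟩, l t) c) (e t).1) (p (e t).2.1)) - p (e t).2.2| ≤ 10 / 2 ^ S ↔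
        |P (e t).1 ((Em (e t).1 (p (e t).2.1) + Wd β u N (τ (e t).1) (Function.update (dg ω (e t).1) (l t) 0) (p (e t).2.1)) +
          τ (e t).1 * (((c : ℕ) : ℝ) / N)) - p (e t).2.2| ≤ 10 / 2 ^ S
      have h1 : dg (Function.update ω (⟨(e t).1, (hE _ (he t)).1⟩, l t) c) (e t).1 = Function.update (dg ω (e t).1) (l t) (c : ℕ) := by
        funext l'
        rw [bCFG_dg, Function.update_apply]
        simp
      rw [h1, (hWi (e t).1 ω).2.2.2.2 _ hx (l t) (hl t) c, add_assoc]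
    rw [hset]
    have h1 := hDGT (P (e t).1) (Em (e t).1 (p (e t).2.1) + Wd β u N (τ (e t).1) (Function.update (dg ω (e t).1) (l t) 0) (p (e t).2.1))
      (τ (e t).1) (10 / 2 ^ S) (p (e t).2.2) N (fun x y => by
        have := ((hP (e t).1).2.2.2 x y).1
        have h9 := abs_nonneg (x - y)
        linarith) (hτ0 _) (by positivity) hN
    refine h1.trans ?_
    have h2 : 4 * (10 / 2 ^ S) / τ (e t).1 ≤ 40 / (2 ^ S * τ1) := by
      have h3 : 4 * (10 / 2 ^ S) / τ (e t).1 = 40 / (2 ^ S * τ (e t).1) := by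
        have := hτ0 (e t).1
        field_simp
        norm_num
      rw [h3]
      have := (hτ (e t).1).1
      gcongr
    linarith

end Pool.Agent.helper90.DH
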